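import Mathlib
import Pool.Agent.Q133.BipartPoly

set_option autoImplicit false

/-!
# The bipartition polynomial of a graph is determined by that of its complement (Q1)
-/

namespace Pool.Agent.Results.MP_633bfc_co.ComplementDetermines

open Q133.BipartPoly

universe u v

/-- `B(Ḡ) = B(H̄)` implies `B(G) = B(H)`; equivalently there is a map `Φ` from polynomials to
polynomials with `B(G) = Φ(B(Ḡ))` for every finite simple graph `G`. -/
theorem result :
    (∀ (V : Type u) (V' : Type v) [Fintype V] [Fintype V'] (G : SimpleGraph V)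
      (H : SimpleGraph V'), bipartitionPoly Gᶜ = bipartitionPoly Hᶜ →
        bipartitionPoly G = bipartitionPoly H) ∧
    ∃ Φ : MvPolynomial (Fin 3) ℤ → MvPolynomial (Fin 3) ℤ,
      ∀ (V : Type u) [Fintype V] (G : SimpleGraph V),
        bipartitionPoly G = Φ (bipartitionPoly Gᶜ) := by
  classical
  refine ⟨fun V V' _ _ G H h => main G H h, ?_⟩
  refine ⟨fun P => if h : ∃ (V : Type u) (_ : Fintype V) (G : SimpleGraph V),
      bipartitionPoly Gᶜ = P then
        @bipartitionPoly h.choose h.choose_spec.choose h.choose_spec.choose_spec.choose else 0, ?_⟩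
  intro V _ G
  have h : ∃ (V' : Type u) (_ : Fintype V') (G' : SimpleGraph V'),
      bipartitionPoly G'ᶜ = bipartitionPoly Gᶜ := ⟨V, inferInstance, G, rfl⟩
  simp only [dif_pos h]
  exact (@main _ _ h.choose_spec.choose _ _ _ h.choose_spec.choose_spec.choose_spec).symm

end Pool.Agent.Results.MP_633bfc_co.ComplementDetermines
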